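import Pool.Agent.H862R3.Monster.Targets

set_option autoImplicit false

open Pool.Agent.H862R3.Monster

universe u

/-- Hereditary super-rigidity of the random monster groups with respect to every countable group,
in particular with respect to mapping class groups, braid groups, `Out(F_N)`, `Aut(F_N)` and
hierarchically hyperbolic groups, which are all finitely generated. -/
theorem Pool.Agent.Results.MP_b8022a_al.Hereditary.result :
    ∀ (d k j : ℕ) (_ : 3 ≤ d) (hk : 2 ≤ k) (_ : 1 ≤ j)
      (V : ℕ → Type) [∀ n, Finite (V n)] (Ω : ∀ n, SimpleGraph (V n)),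
      Standing Ω → (∀ n v, ((Ω n).neighborSet v).ncard = d) →
      ∀ (G : Type u) [Group G] [Countable G], HereditarySuperRigid (Red k j hk) Ω G := by
  intro d k j _ hk hj V _ Ω hst hdeg G _ _
  exact hereditary hk (infinite_not_acyclic hst (fun n v => (hdeg n v).le)) (good_Red hk hj)
      (quot_mem_Ev_Red hk) _
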